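import Mathlib
import Pool.Agent.H2.KirProof

open LaurentPolynomial

theorem Pool.Agent.Results.MP_1cd45c_al.Identity.result (A b : ℕ → ℕ → LaurentPolynomial ℤ)
    (a0 : A 0 0 = 1) (a1 : ∀ r, A 0 (r + 1) = 0) (a2 : ∀ n, A (n + 1) 0 = A n 0)
    (a3 : ∀ n r : ℕ, A (n + 1) (r + 1) = T (r + 1) * A n (r + 1) + (T (n - r) - T r) * A n r)
    (b0 : b 0 0 = 1) (b1 : ∀ l : ℕ, b 0 (l + 1) = T (l + 1) * b l 0)
    (b2 : ∀ k l : ℕ, b (k + 1) l = T (-1) * b k (l + 1) + (T (l + 1) - T l) * b l k) (n : ℕ) :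
    b n 0 = ∑ r ∈ Finset.range (n + 2), A (n + 1) r :=
  Pool.Agent.H2.Kir.main A b a0 a1 a2 a3 b0 b1 b2 n
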